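import Mathlib

/-!
Definition used in the statement of the hand-in for MP_556fef_co.
-/

namespace MP556fef

open Polynomial

/-- The configuration `{x, y, xy} ∪ {x + p(y) : p ∈ P}` of rational numbers attached to a set
`P` of polynomials with integer coefficients and to rational numbers `x`, `y`. -/
def SigmaSet (P : Set ℤ[X]) (x y : ℚ) : Set ℚ :=
  {x, y, x * y} ∪ {z | ∃ p ∈ P, z = x + aeval y p}

end MP556fef
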