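import Mathlib

/-!
Uniform IP polynomial van der Waerden theorem over the rationals (module of MP_556fef_co).
-/

namespace MP556fef

open Polynomial

/-- The polynomial `t ↦ P(t + a) - P(a) - Q(t)`. -/
noncomputable def dif (P Q : ℚ[X]) (a : ℚ) : ℚ[X] := taylor a P - C (P.eval a) - Q

theorem dif_eval (P Q : ℚ[X]) (a t : ℚ) :
    (dif P Q a).eval t = P.eval (t + a) - P.eval a - Q.eval t := by
  simp [dif, taylor_eval]

theorem dif_coeff_zero (P Q : ℚ[X]) (a : ℚ) (hQ : Q.coeff 0 = 0) : (dif P Q a).coeff 0 = 0 := by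
  simp [dif, hQ, taylor_coeff_zero]

theorem dif_coeff (P Q : ℚ[X]) (a : ℚ) (n : ℕ) (hn : n ≠ 0) :
    (dif P Q a).coeff n = (taylor a P).coeff n - Q.coeff n := by
  simp [dif, coeff_C, hn]

theorem dif_natDegree_le (P Q : ℚ[X]) (a : ℚ) (D : ℕ) (hP : P.natDegree ≤ D)
    (hQ : Q.natDegree ≤ D) : (dif P Q a).natDegree ≤ D := by
  unfold dif
  refine (natDegree_sub_le _ _).trans (max_le ?_ hQ)
  refine (natDegree_sub_le _ _).trans (max_le ?_ ?_)
  · rw [natDegree_taylor]; exact hP
  · simp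

theorem dif_lc_gt (P Q : ℚ[X]) (a : ℚ) (hP : P ≠ 0)
    (h : Q.natDegree < (dif P Q a).natDegree) :
    P.natDegree = (dif P Q a).natDegree ∧ (dif P Q a).leadingCoeff = P.leadingCoeff := by
  set n := (dif P Q a).natDegree with hn
  have hn0 : n ≠ 0 := by omega
  have hR : dif P Q a ≠ 0 := by
    intro h0
    rw [h0] at hn
    simp at hn
    exact hn0 hn
  have hQn : Q.coeff n = 0 := coeff_eq_zero_of_natDegree_lt h
  have h1 : (dif P Q a).coeff n ≠ 0 := by
    rw [hn]
    exact leadingCoeff_ne_zero.2 hR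
  have h2 : (taylor a P).coeff n ≠ 0 := by
    rw [dif_coeff _ _ _ _ hn0, hQn, sub_zero] at h1
    exact h1
  have h3 : n ≤ P.natDegree := by
    have := le_natDegree_of_ne_zero h2
    rwa [natDegree_taylor] at this
  have h4 : P.natDegree ≤ n := by
    by_contra hlt
    push Not at hlt
    have h5 : (dif P Q a).coeff P.natDegree = 0 :=
      coeff_eq_zero_of_natDegree_lt (by rw [← hn]; exact hlt)
    rw [dif_coeff _ _ _ _ (by omega), coeff_taylor_natDegree,
      coeff_eq_zero_of_natDegree_lt (show Q.natDegree < P.natDegree by omega), sub_zero] at h5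
    exact leadingCoeff_ne_zero.2 hP h5
  have h6 : P.natDegree = n := le_antisymm h4 h3
  refine ⟨h6, ?_⟩
  have h7 : (dif P Q a).leadingCoeff = (dif P Q a).coeff n := by rw [hn]; rfl
  rw [h7, dif_coeff _ _ _ _ hn0, hQn, sub_zero, ← h6, coeff_taylor_natDegree]

theorem dif_lc_eq (P Q : ℚ[X]) (a : ℚ) (hP : P ≠ 0) (hQ0 : Q.natDegree ≠ 0)
    (hPQ : Q.natDegree ≤ P.natDegree)
    (h : (dif P Q a).natDegree = Q.natDegree) :
    P.natDegree = Q.natDegree ∧ P.leadingCoeff ≠ Q.leadingCoeff ∧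
      (dif P Q a).leadingCoeff = P.leadingCoeff - Q.leadingCoeff := by
  have h4 : P.natDegree ≤ Q.natDegree := by
    by_contra hlt
    push Not at hlt
    have h5 : (dif P Q a).coeff P.natDegree = 0 :=
      coeff_eq_zero_of_natDegree_lt (by rw [h]; exact hlt)
    rw [dif_coeff _ _ _ _ (by omega), coeff_taylor_natDegree,
      coeff_eq_zero_of_natDegree_lt (show Q.natDegree < P.natDegree by omega), sub_zero] at h5
    exact leadingCoeff_ne_zero.2 hP h5
  have h6 : P.natDegree = Q.natDegree := le_antisymm h4 hPQ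
  have h7 : (dif P Q a).leadingCoeff = P.leadingCoeff - Q.leadingCoeff := by
    have : (dif P Q a).leadingCoeff = (dif P Q a).coeff P.natDegree := by rw [h6, ← h]; rfl
    rw [this, dif_coeff _ _ _ _ (by omega), coeff_taylor_natDegree]
    rw [h6]
    rfl
  refine ⟨h6, ?_, h7⟩
  intro heq
  rw [heq, sub_self, leadingCoeff_eq_zero] at h7
  rw [h7] at h
  simp at h
  exact hQ0 h.symm

/-- Weight bound: for each degree `j + 1` the leading coefficients of the members of degree
`j + 1` lie in a set of at most `w j` elements. -/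
def WB (D : ℕ) {ι : Type} (P : ι → ℚ[X]) (w : Fin D → ℕ) : Prop :=
  ∀ j : Fin D, ∃ S : Finset ℚ, S.card ≤ w j ∧
    ∀ i, (P i).natDegree = (j : ℕ) + 1 → (P i).leadingCoeff ∈ S

/-- The uniform IP van der Waerden statement for weight `w`. -/
def VdW (D : ℕ) (w : Fin D → ℕ) : Prop :=
  ∀ (ι C : Type) [Finite ι] [Finite C], ∃ (M β : Type) (_ : Finite M) (_ : Finite β),
    ∀ (σ : M → ℚ) (P : ι → ℚ[X]),
      (∀ i, (P i).coeff 0 = 0 ∧ (P i).natDegree ≤ D) → WB D P w →
      ∃ ψ : β → ℚ, ∀ χ : ℚ → C, ∃ b : β, ∃ γ : Finset M, γ.Nonempty ∧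
        ∀ i, χ (ψ b + (P i).eval (∑ j ∈ γ, σ j)) = χ (ψ b)

/-- Hypotheses for the focusing argument. -/
def Hyp (D : ℕ) (m : Fin D) {ι : Type} (P : ι → ℚ[X]) (Q : ℚ[X]) (w : Fin D → ℕ) : Prop :=
  (∀ i, P i ≠ 0 ∧ (P i).coeff 0 = 0 ∧ (P i).natDegree ≤ D ∧ (m : ℕ) + 1 ≤ (P i).natDegree) ∧
  Q.coeff 0 = 0 ∧ Q.natDegree = (m : ℕ) + 1 ∧
  (∀ j : Fin D, m < j → ∃ S : Finset ℚ, S.card ≤ w j ∧
    ∀ i, (P i).natDegree = (j : ℕ) + 1 → (P i).leadingCoeff ∈ S) ∧
  (∃ S : Finset ℚ, S.card ≤ w m ∧ Q.leadingCoeff ∈ S ∧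
    ∀ i, (P i).natDegree = (m : ℕ) + 1 → (P i).leadingCoeff ∈ S)

/-- The focusing statement with `s` focused colours. -/
def Foc (D : ℕ) (m : Fin D) (w : Fin D → ℕ) (ι C : Type) (s : ℕ) : Prop :=
  ∃ (M β : Type) (_ : Finite M) (_ : Finite β),
    ∀ (σ : M → ℚ) (P : ι → ℚ[X]) (Q : ℚ[X]), Hyp D m P Q w →
      ∃ ψ : β → ℚ, ∀ χ : ℚ → C, ∃ b : β,
        (∃ γ : Finset M, γ.Nonempty ∧
          ∀ i, χ (ψ b + (P i).eval (∑ j ∈ γ, σ j)) = χ (ψ b)) ∨
        (∃ T : Finset C, T.card = s ∧ ∀ t ∈ T, ∃ γ : Finset M, γ.Nonempty ∧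
          ∀ i, χ (ψ b + (P i).eval (∑ j ∈ γ, σ j)) = t)

/-- The lowered weight. -/
def low (D : ℕ) (m : Fin D) (w : Fin D → ℕ) (N : ℕ) : Fin D → ℕ :=
  fun j => if j < m then N else if j = m then w m - 1 else w j

theorem foc_zero (D : ℕ) (m : Fin D) (w : Fin D → ℕ) (ι C : Type) : Foc D m w ι C 0 := by
  refine ⟨Empty, Unit, inferInstance, inferInstance, ?_⟩
  intro σ P Q _
  refine ⟨fun _ => 0, fun χ => ⟨(), Or.inr ⟨∅, rfl, ?_⟩⟩⟩
  intro t ht
  simp at ht

theorem foc_succ (D : ℕ) (m : Fin D) (w : Fin D → ℕ)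
    (IH : ∀ N, VdW D (low D m w N)) (ι C : Type) [Finite ι] [Finite C] (s : ℕ)
    (hs : Foc D m w ι C s) : Foc D m w ι C (s + 1) := by
  classical
  obtain ⟨M, β, hM, hβ, hF⟩ := hs
  obtain ⟨M', β', hM', hβ', hV⟩ :=
    IH (Nat.card (ι × Finset M)) (ι × Finset M) (β → Option (ι × Finset M) → C)
  refine ⟨M ⊕ M', β' × β × Option (Finset M'), inferInstance, inferInstance, ?_⟩
  intro σ P Q hyp
  obtain ⟨ψ, hψ⟩ := hF (fun j => σ (Sum.inl j)) P Q hyp
  obtain ⟨hP, hQ0, hQd, hSgt, S₀, hS₀c, hS₀Q, hS₀⟩ := hyp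
  obtain ⟨ψ', hψ'⟩ := hV (fun j => σ (Sum.inr j))
    (fun q => dif (P q.1) Q (∑ j ∈ q.2, σ (Sum.inl j)))
    (by
      intro q
      refine ⟨dif_coeff_zero _ _ _ hQ0, dif_natDegree_le _ _ _ _ (hP q.1).2.2.1 ?_⟩
      have := m.isLt
      omega)
    (by
      intro j
      rcases lt_trichotomy j m with hj | hj | hj
      · have : Fintype (ι × Finset M) := Fintype.ofFinite _
        refine ⟨Finset.univ.image
          (fun q : ι × Finset M => (dif (P q.1) Q (∑ j ∈ q.2, σ (Sum.inl j))).leadingCoeff),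
          ?_, ?_⟩
        · refine Finset.card_image_le.trans ?_
          simp only [low, hj, if_true]
          rw [Nat.card_eq_fintype_card]
          exact le_of_eq Finset.card_univ
        · intro q _
          exact Finset.mem_image_of_mem _ (Finset.mem_univ q)
      · subst hj
        refine ⟨(S₀.erase Q.leadingCoeff).image (fun x => x - Q.leadingCoeff), ?_, ?_⟩
        · refine Finset.card_image_le.trans ?_
          rw [Finset.card_erase_of_mem hS₀Q]
          simp only [low, lt_irrefl, if_false, if_true]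
          omega
        · intro q hq
          obtain ⟨h1, h2, h3⟩ := dif_lc_eq (P q.1) Q (∑ j ∈ q.2, σ (Sum.inl j)) (hP q.1).1
            (by omega) (by rw [hQd]; exact (hP q.1).2.2.2) (by rw [hq, hQd])
          rw [h3]
          refine Finset.mem_image.2 ⟨(P q.1).leadingCoeff, Finset.mem_erase.2 ⟨h2, ?_⟩, rfl⟩
          exact hS₀ q.1 (by rw [h1, hQd])
      · obtain ⟨S, hSc, hS⟩ := hSgt j hj
        refine ⟨S, ?_, ?_⟩
        · simp only [low, not_lt_of_gt hj, if_false, ne_of_gt hj]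
          exact hSc
        · intro q hq
          have hlt : (m : ℕ) < j := hj
          obtain ⟨h1, h2⟩ := dif_lc_gt (P q.1) Q (∑ j ∈ q.2, σ (Sum.inl j)) (hP q.1).1
            (by rw [hq, hQd]; omega)
          rw [h2]
          exact hS q.1 (by rw [h1, hq]))
  refine ⟨fun q => ψ' q.1 + ψ q.2.1 -
    q.2.2.elim 0 (fun δ => Q.eval (∑ j ∈ δ, σ (Sum.inr j))), ?_⟩
  intro χ
  obtain ⟨b', δ, hδne, hδ⟩ := hψ' (fun x b o => χ (x + (ψ b + o.elim 0
    (fun q : ι × Finset M => (P q.1).eval (∑ j ∈ q.2, σ (Sum.inl j))))))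
  obtain ⟨b, hb⟩ := hψ (fun x => χ (ψ' b' + x))
  have sum_inl : ∀ γ : Finset M, ∑ j ∈ γ.map Function.Embedding.inl, σ j =
      ∑ j ∈ γ, σ (Sum.inl j : M ⊕ M') := by
    intro γ
    simp
  have sum_inr : ∀ γ : Finset M', ∑ j ∈ γ.map Function.Embedding.inr, σ j =
      ∑ j ∈ γ, σ (Sum.inr j : M ⊕ M') := by
    intro γ
    simp
  rcases hb with ⟨γ, hγ, hwin⟩ | ⟨T, hT, hcol⟩
  · refine ⟨(b', b, none), Or.inl ⟨γ.map Function.Embedding.inl, by simpa using hγ, ?_⟩⟩
    intro i
    have := hwin i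
    rw [sum_inl]
    simp only [Option.elim, sub_zero]
    rw [add_assoc]
    exact this
  · by_cases ht : χ (ψ' b' + ψ b) ∈ T
    · obtain ⟨γ, hγ, hwin⟩ := hcol _ ht
      refine ⟨(b', b, none), Or.inl ⟨γ.map Function.Embedding.inl, by simpa using hγ, ?_⟩⟩
      intro i
      have := hwin i
      rw [sum_inl]
      simp only [Option.elim, sub_zero]
      rw [add_assoc]
      exact this
    · refine ⟨(b', b, some δ), Or.inr ⟨insert (χ (ψ' b' + ψ b)) T, ?_, ?_⟩⟩
      · rw [Finset.card_insert_of_notMem ht, hT]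
      · intro t htT
        rcases Finset.mem_insert.1 htT with rfl | htT
        · refine ⟨δ.map Function.Embedding.inr, by simpa using hδne, ?_⟩
          intro i
          have := congrFun (congrFun (hδ (i, ∅)) b) none
          simp only [dif_eval, Finset.sum_empty, add_zero, Option.elim] at this
          have hPi0 : (P i).eval 0 = 0 := by
            rw [← coeff_zero_eq_eval_zero]; exact (hP i).2.1
          rw [hPi0] at this
          rw [sum_inr]
          simp only [Option.elim]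
          rw [← this]
          congr 1
          ring
        · obtain ⟨γ, hγ, hc⟩ := hcol t htT
          refine ⟨γ.disjSum δ, ?_, ?_⟩
          · obtain ⟨x, hx⟩ := hγ
            exact ⟨Sum.inl x, by simpa using hx⟩
          · intro i
            have := congrFun (congrFun (hδ (i, γ)) b) (some (i, γ))
            simp only [dif_eval, Option.elim] at this
            rw [hc i] at this
            rw [Finset.sum_disjSum]
            simp only [Option.elim]
            rw [← this]
            congr 1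
            rw [add_comm (∑ j ∈ δ, σ (Sum.inr j)) (∑ j ∈ γ, σ (Sum.inl j))]
            ring

theorem vdw_step (D : ℕ) (m : Fin D) (w : Fin D → ℕ) (hm : ∀ j < m, w j = 0) (hpos : 0 < w m)
    (IH : ∀ N, VdW D (low D m w N)) : VdW D w := by
  classical
  intro ι C _ _
  have hF : ∀ s, Foc D m w ι C s := by
    intro s
    induction s with
    | zero => exact foc_zero D m w ι C
    | succ s ih => exact foc_succ D m w IH ι C s ih
  obtain ⟨M, β, hM, hβ, hFoc⟩ := hF (Nat.card C)
  refine ⟨M, β, hM, hβ, ?_⟩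
  intro σ P hP hW
  have hdeg : ∀ i, P i ≠ 0 → (m : ℕ) + 1 ≤ (P i).natDegree := by
    intro i hi
    by_contra hlt
    push Not at hlt
    have h0 : (P i).natDegree ≠ 0 := by
      intro h0
      apply hi
      rw [eq_C_of_natDegree_eq_zero h0, (hP i).1, C_0]
    have hj : (P i).natDegree - 1 < D := by
      have := m.isLt
      omega
    obtain ⟨S, hSc, hS⟩ := hW ⟨(P i).natDegree - 1, hj⟩
    rw [hm ⟨(P i).natDegree - 1, hj⟩ (by
      rw [Fin.lt_def]
      simp only
      omega)] at hSc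
    have := hS i (by simp only; omega)
    rw [Finset.card_eq_zero.1 (Nat.le_zero.1 hSc)] at this
    simp at this
  obtain ⟨Q, hQ0, hQd, S₀, hS₀c, hS₀Q, hS₀⟩ : ∃ Q : ℚ[X], Q.coeff 0 = 0 ∧
      Q.natDegree = (m : ℕ) + 1 ∧ ∃ S : Finset ℚ, S.card ≤ w m ∧ Q.leadingCoeff ∈ S ∧
        ∀ i, (P i).natDegree = (m : ℕ) + 1 → (P i).leadingCoeff ∈ S := by
    by_cases hex : ∃ i, (P i).natDegree = (m : ℕ) + 1
    · obtain ⟨i, hi⟩ := hex
      obtain ⟨S, hSc, hS⟩ := hW m
      exact ⟨P i, (hP i).1, hi, S, hSc, hS i hi, hS⟩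
    · push Not at hex
      refine ⟨X ^ ((m : ℕ) + 1), ?_, ?_, {1}, ?_, ?_, ?_⟩
      · simp
      · simp
      · rw [Finset.card_singleton]
        exact hpos
      · simp
      · intro i hi
        exact absurd hi (hex i)
  have hQne : Q ≠ 0 := by
    intro h
    rw [h] at hQd
    simp at hQd
  have hyp : Hyp D m (fun i => if P i = 0 then Q else P i) Q w := by
    refine ⟨?_, hQ0, hQd, ?_, S₀, hS₀c, hS₀Q, ?_⟩
    · intro i
      by_cases h : P i = 0
      · simp only [h, if_true]
        refine ⟨hQne, hQ0, ?_, ?_⟩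
        · have := m.isLt
          omega
        · omega
      · simp only [h, if_false]
        exact ⟨h, (hP i).1, (hP i).2, hdeg i h⟩
    · intro j hj
      obtain ⟨S, hSc, hS⟩ := hW j
      refine ⟨S, hSc, ?_⟩
      intro i hi
      by_cases h : P i = 0
      · simp only [h, if_true] at hi
        rw [hQd] at hi
        have : (m : ℕ) < j := hj
        omega
      · simp only [h, if_false] at hi ⊢
        exact hS i hi
    · intro i hi
      by_cases h : P i = 0
      · simp only [h, if_true]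
        exact hS₀Q
      · simp only [h, if_false] at hi ⊢
        exact hS₀ i hi
  obtain ⟨ψ, hψ⟩ := hFoc σ _ Q hyp
  refine ⟨ψ, fun χ => ?_⟩
  obtain ⟨b, hb⟩ := hψ χ
  have key : ∃ γ : Finset M, γ.Nonempty ∧ ∀ i,
      χ (ψ b + (if P i = 0 then Q else P i).eval (∑ j ∈ γ, σ j)) = χ (ψ b) := by
    rcases hb with hb | ⟨T, hT, hcol⟩
    · exact hb
    · have : Fintype C := Fintype.ofFinite C
      have hTu : T = Finset.univ := by
        apply Finset.eq_univ_of_card
        rw [hT, Nat.card_eq_fintype_card]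
      exact hcol (χ (ψ b)) (by rw [hTu]; exact Finset.mem_univ _)
  obtain ⟨γ, hγ, hc⟩ := key
  refine ⟨b, γ, hγ, fun i => ?_⟩
  by_cases h : P i = 0
  · rw [h]
    simp
  · have := hc i
    simp only [h, if_false] at this
    exact this

theorem vdw_all (D : ℕ) (w : Fin D → ℕ) : VdW D w := by
  classical
  have wf : WellFounded (Pi.Lex (β := fun _ : Fin D => ℕ) (fun a b : Fin D => b < a)
      (fun {_} => (· < ·))) :=
    Pi.Lex.wellFounded (fun a b : Fin D => b < a) (fun _ => wellFounded_lt)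
  induction w using wf.induction with
  | _ w ih =>
    by_cases h0 : ∃ j, w j ≠ 0
    · have : Nonempty (Fin D) := ⟨h0.choose⟩
      obtain ⟨m, hm, hmin⟩ : ∃ m, w m ≠ 0 ∧ ∀ j < m, w j = 0 := by
        have hne : (Finset.univ.filter (fun j => w j ≠ 0)).Nonempty := by
          obtain ⟨j, hj⟩ := h0
          exact ⟨j, by simpa using hj⟩
        refine ⟨(Finset.univ.filter (fun j => w j ≠ 0)).min' hne, ?_, ?_⟩
        · have := Finset.min'_mem _ hne
          simpa using this
        · intro j hj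
          by_contra hcon
          have := Finset.min'_le (Finset.univ.filter (fun j => w j ≠ 0)) j (by simpa using hcon)
          exact absurd hj (not_lt.2 this)
      apply vdw_step D m w hmin (Nat.pos_of_ne_zero hm)
      intro N
      apply ih
      refine ⟨m, ?_, ?_⟩
      · intro j hj
        simp only [low, not_lt_of_gt hj, if_false, ne_of_gt hj]
      · simp only [low, lt_irrefl, if_false, if_true]
        omega
    · push Not at h0
      intro ι C _ _
      refine ⟨Unit, Unit, inferInstance, inferInstance, ?_⟩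
      intro σ P hP hW
      have hP0 : ∀ i, P i = 0 := by
        intro i
        have hd : (P i).natDegree = 0 := by
          by_contra hd
          have hj : (P i).natDegree - 1 < D := by
            have := (hP i).2
            omega
          obtain ⟨S, hSc, hS⟩ := hW ⟨(P i).natDegree - 1, hj⟩
          rw [h0] at hSc
          have := hS i (by simp only; omega)
          rw [Finset.card_eq_zero.1 (Nat.le_zero.1 hSc)] at this
          simp at this
        rw [eq_C_of_natDegree_eq_zero hd, (hP i).1, C_0]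
      refine ⟨fun _ => 0, fun χ => ⟨(), {()}, by simp, ?_⟩⟩
      intro i
      rw [hP0 i]
      simp

/-- Uniform IP polynomial van der Waerden theorem over `ℚ`: the index types `M`, `β` do not
depend on the polynomials and the shifts `ψ` do not depend on the colouring. -/
theorem pvdw (D : ℕ) (ι C : Type) [Finite ι] [Finite C] :
    ∃ (M β : Type) (_ : Finite M) (_ : Finite β), ∀ (σ : M → ℚ) (P : ι → ℚ[X]),
      (∀ i, (P i).coeff 0 = 0 ∧ (P i).natDegree ≤ D) →
      ∃ ψ : β → ℚ, ∀ χ : ℚ → C, ∃ b : β, ∃ γ : Finset M, γ.Nonempty ∧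
        ∀ i, χ (ψ b + (P i).eval (∑ j ∈ γ, σ j)) = χ (ψ b) := by
  classical
  obtain ⟨M, β, hM, hβ, h⟩ := vdw_all D (fun _ => Nat.card ι) ι C
  refine ⟨M, β, hM, hβ, fun σ P hP => h σ P hP ?_⟩
  intro j
  have : Fintype ι := Fintype.ofFinite ι
  refine ⟨Finset.univ.image (fun i => (P i).leadingCoeff), ?_, ?_⟩
  · refine Finset.card_image_le.trans ?_
    rw [Nat.card_eq_fintype_card]
    exact le_of_eq Finset.card_univ
  · intro i _
    exact Finset.mem_image_of_mem _ (Finset.mem_univ i)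

end MP556fef
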