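import Mathlib
import Pool.Agent.Work.MP_556fef_co.PVdW

/-!
The polynomial-shift module of MP_556fef_co.
-/

namespace MP556fef

open Polynomial

/-- Extension of a function on `I` to all of `ℕ`. -/
def ext {M : Type} (I : Finset ℕ) (γ : I → Finset M) (k : ℕ) : Finset M :=
  if h : k ∈ I then γ ⟨k, h⟩ else ∅

theorem ext_of_mem {M : Type} (I : Finset ℕ) (γ : I → Finset M) (k : ℕ) (h : k ∈ I) :
    ext I γ k = γ ⟨k, h⟩ := by
  simp [ext, h]

theorem dness (K : Type) [Finite K] (H : Finset ℚ) (hH : ∀ h ∈ H, h ≠ 0) (P : Finset ℚ[X])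
    (hP : ∀ p ∈ P, p.coeff 0 = 0) (I : Finset ℕ) :
    ∃ (M β : Type) (_ : Finite M) (_ : Finite β), ∀ σ : ℕ → M → ℚ,
      (∀ k ∈ I, ∀ γ : Finset M, γ.Nonempty → ∑ i ∈ γ, σ k i ≠ 0) →
      ∃ φ : β → ℚ, ∀ (c : ℚ → K) (x₀ : ℚ), ∃ (b : β) (γ : ℕ → Finset M),
        (∀ k ∈ I, (γ k).Nonempty) ∧
        ∀ U ⊆ I, ∀ V ⊆ I, ∀ m ∈ U, (∀ v ∈ V, m < v) → ∀ h ∈ H, ∀ p ∈ P,
          c (h * (∏ k ∈ V, ∑ i ∈ γ k, σ k i) * (x₀ + φ b) +
              p.eval (∏ k ∈ U, ∑ i ∈ γ k, σ k i)) =
            c (h * (∏ k ∈ V, ∑ i ∈ γ k, σ k i) * (x₀ + φ b)) := by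
  classical
  induction I using Finset.induction_on_min with
  | empty =>
    refine ⟨Unit, Unit, inferInstance, inferInstance, ?_⟩
    intro σ _
    refine ⟨fun _ => 0, fun c x₀ => ⟨(), fun _ => ∅, by simp, ?_⟩⟩
    intro U hU V hV m hm
    exact absurd (hU hm) (Finset.notMem_empty m)
  | insert a I ha ih =>
    obtain ⟨M, β, hM, hβ, hI⟩ := ih
    -- degree bound for the polynomials
    obtain ⟨D, hD⟩ : ∃ D : ℕ, ∀ p ∈ P, p.natDegree ≤ D :=
      ⟨P.sup (fun p => p.natDegree), fun p hp => Finset.le_sup (f := fun p => p.natDegree) hp⟩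
    obtain ⟨M', β', hM', hβ', hpv⟩ := pvdw D (H × P × I.powerset × I.powerset × (I → Finset M))
      (β × (I → Finset M) × (H → I.powerset → K))
    refine ⟨M ⊕ M', β × β', inferInstance, inferInstance, ?_⟩
    intro σ hσ
    have haI : a ∉ I := fun h => lt_irrefl a (ha a h)
    obtain ⟨φ, hφ⟩ := hI (fun k j => σ k (Sum.inl j)) (by
      intro k hk γ hγ
      have := hσ k (Finset.mem_insert_of_mem hk) (γ.map Function.Embedding.inl)
        (by simpa using hγ)
      simpa using this)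
    -- the static family of polynomials
    let y : (I → Finset M) → ℕ → ℚ := fun g k => ∑ i ∈ ext I g k, σ k (Sum.inl i)
    obtain ⟨ψ, hψ⟩ := hpv (fun j => σ a (Sum.inr j))
      (fun q => C (1 / ((q.1 : ℚ) * ∏ k ∈ (q.2.2.1 : Finset ℕ), y q.2.2.2.2 k)) *
        ((q.2.1 : ℚ[X]).comp (C (∏ k ∈ (q.2.2.2.1 : Finset ℕ), y q.2.2.2.2 k) * X))) (by
      intro q
      refine ⟨?_, ?_⟩
      · rw [coeff_zero_eq_eval_zero]
        simp only [eval_mul, eval_C, eval_comp, eval_X, mul_zero]
        rw [← coeff_zero_eq_eval_zero, hP _ q.2.1.2, mul_zero]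
      · refine (natDegree_C_mul_le _ _).trans ?_
        refine natDegree_comp_le.trans ?_
        refine (Nat.mul_le_mul_left _ ((natDegree_C_mul_le _ _).trans natDegree_X_le)).trans ?_
        rw [mul_one]
        exact hD _ q.2.1.2)
    refine ⟨fun q => φ q.1 + ψ q.2, fun c x₀ => ?_⟩
    choose bf γf hγne hγc using hφ c
    obtain ⟨b', δ, hδne, hδ⟩ := hψ (fun z => (bf (x₀ + z), (fun k : I => γf (x₀ + z) k),
      fun (h : H) (V : I.powerset) => c ((h : ℚ) * (∏ k ∈ (V : Finset ℕ),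
        ∑ i ∈ γf (x₀ + z) k, σ k (Sum.inl i)) * ((x₀ + z) + φ (bf (x₀ + z))))))
    set x₁ := x₀ + ψ b' with hx₁
    refine ⟨(bf x₁, b'), fun k => if k = a then δ.map Function.Embedding.inr else
      (γf x₁ k).map Function.Embedding.inl, ?_, ?_⟩
    · intro k hk
      by_cases hka : k = a
      · simpa [hka] using hδne
      · have hkI : k ∈ I := Finset.mem_of_mem_insert_of_ne hk hka
        simpa [hka] using hγne x₁ k hkI
    · -- products over subsets of `I`
      have hprod : ∀ W ⊆ I, ∏ k ∈ W, ∑ i ∈ (if k = a then δ.map Function.Embedding.inr else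
          (γf x₁ k).map Function.Embedding.inl), σ k i =
          ∏ k ∈ W, ∑ i ∈ γf x₁ k, σ k (Sum.inl i) := by
        intro W hW
        refine Finset.prod_congr rfl ?_
        intro k hk
        have hka : k ≠ a := fun h => haI (h ▸ hW hk)
        simp [hka]
      have hyprod : ∀ W ⊆ I, ∏ k ∈ W, y (fun k : I => γf x₁ k) k =
          ∏ k ∈ W, ∑ i ∈ γf x₁ k, σ k (Sum.inl i) := by
        intro W hW
        refine Finset.prod_congr rfl ?_
        intro k hk
        simp only [y, ext_of_mem I _ k (hW hk)]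
      have hne : ∀ W ⊆ I, ∏ k ∈ W, ∑ i ∈ γf x₁ k, σ k (Sum.inl i) ≠ 0 := by
        intro W hW
        refine Finset.prod_ne_zero_iff.2 ?_
        intro k hk
        have := hσ k (Finset.mem_insert_of_mem (hW hk))
          ((γf x₁ k).map Function.Embedding.inl) (by simpa using hγne x₁ k (hW hk))
        simpa using this
      intro U hU V hV m hm hmV h hh p hp
      have haV : a ∉ V := by
        intro haV
        have h1 := hmV a haV
        rcases Finset.mem_insert.1 (hU hm) with h2 | h2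
        · omega
        · exact absurd h1 (not_lt.2 (le_of_lt (ha m h2)))
      have hVI : V ⊆ I := fun k hk =>
        Finset.mem_of_mem_insert_of_ne (hV hk) (fun hka => haV (hka ▸ hk))
      by_cases haU : a ∈ U
      · -- new condition
        have hU'I : U.erase a ⊆ I := fun k hk =>
          Finset.mem_of_mem_insert_of_ne (hU (Finset.mem_of_mem_erase hk))
            (Finset.ne_of_mem_erase hk)
        have hUprod : ∏ k ∈ U, ∑ i ∈ (if k = a then δ.map Function.Embedding.inr else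
            (γf x₁ k).map Function.Embedding.inl), σ k i =
            (∏ k ∈ U.erase a, ∑ i ∈ γf x₁ k, σ k (Sum.inl i)) *
              ∑ i ∈ δ, σ a (Sum.inr i) := by
          rw [← Finset.prod_erase_mul U _ haU, hprod _ hU'I]
          simp
        have hspec := hδ (⟨h, hh⟩, ⟨p, hp⟩, ⟨V, Finset.mem_powerset.2 hVI⟩,
          ⟨U.erase a, Finset.mem_powerset.2 hU'I⟩, (fun k : I => γf x₁ k))
        simp only [Prod.mk.injEq] at hspec
        obtain ⟨e1, e2, e3⟩ := hspec
        set Qv : ℚ := eval (∑ j ∈ δ, σ a (Sum.inr j))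
          (C (1 / (h * ∏ k ∈ V, y (fun k : I => γf x₁ k) k)) *
            p.comp (C (∏ k ∈ U.erase a, y (fun k : I => γf x₁ k) k) * X)) with hQv
        have hQval : h * (∏ k ∈ V, ∑ i ∈ γf x₁ k, σ k (Sum.inl i)) * Qv =
            p.eval ((∏ k ∈ U.erase a, ∑ i ∈ γf x₁ k, σ k (Sum.inl i)) *
              ∑ i ∈ δ, σ a (Sum.inr i)) := by
          rw [hQv]
          simp only [eval_mul, eval_C, eval_comp, eval_X]
          rw [hyprod V hVI, hyprod _ hU'I]
          have h1 := hne V hVI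
          have h2 := hH h hh
          field_simp
        have e4 := congrFun (congrFun e3 ⟨h, hh⟩) ⟨V, Finset.mem_powerset.2 hVI⟩
        simp only at e4
        have e2' : ∀ k ∈ I, γf (x₀ + (ψ b' + Qv)) k = γf x₁ k := fun k hk =>
          congrFun e2 ⟨k, hk⟩
        have e5 : ∏ k ∈ V, ∑ i ∈ γf (x₀ + (ψ b' + Qv)) k, σ k (Sum.inl i) =
            ∏ k ∈ V, ∑ i ∈ γf x₁ k, σ k (Sum.inl i) := by
          refine Finset.prod_congr rfl ?_
          intro k hk
          rw [e2' k (hVI hk)]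
        rw [e5, e1] at e4
        rw [hUprod, hprod V hVI, ← hQval]
        have e6 : x₀ + (φ (bf x₁) + ψ b') = x₁ + φ (bf x₁) := by
          rw [hx₁]; ring
        have e7 : h * (∏ k ∈ V, ∑ i ∈ γf x₁ k, σ k (Sum.inl i)) * (x₁ + φ (bf x₁)) +
            h * (∏ k ∈ V, ∑ i ∈ γf x₁ k, σ k (Sum.inl i)) * Qv =
            h * (∏ k ∈ V, ∑ i ∈ γf x₁ k, σ k (Sum.inl i)) *
              (x₀ + (ψ b' + Qv) + φ (bf x₁)) := by
          rw [hx₁]; ring
        simp only
        rw [e6, e7]
        exact e4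
      · -- old condition
        have hUI : U ⊆ I := fun k hk =>
          Finset.mem_of_mem_insert_of_ne (hU hk) (fun hka => haU (hka ▸ hk))
        have := hγc x₁ U hUI V hVI m hm hmV h hh p hp
        simp only
        rw [hprod U hUI, hprod V hVI]
        have e6 : x₀ + (φ (bf x₁) + ψ b') = x₁ + φ (bf x₁) := by
          rw [hx₁]; ring
        rw [e6]
        exact this

end MP556fef
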