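import Mathlib

/-!
Construction of the multiplicative systems (module of MP_556fef_co).
-/

namespace MP556fef

open Filter

theorem systems_aux {C : Type} (c : ℚ → C) (T : Finset C) (ε : C → Ultrafilter ℚˣ)
    (h1 : ∀ t ∈ T, ∀ᶠ y : ℚˣ in (ε t : Filter ℚˣ), c (y : ℚ) = t)
    (h2 : ∀ s ∈ T, ∀ t ∈ T, ∀ p : ℚˣ → Prop, (∀ᶠ y in (ε t : Filter ℚˣ), p y) →
        ∀ᶠ x in (ε s : Filter ℚˣ), ∀ᶠ y in (ε t : Filter ℚˣ), p (x * y))
    (h3 : ∀ t ∈ T, ∀ A : Set ℚˣ, A ∈ ε t → ∀ (M : Type) [Finite M], ∃ σ : M → ℚ,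
        ∀ γ : Finset M, γ.Nonempty → ∃ g ∈ A, (g : ℚ) = ∑ i ∈ γ, σ i)
    (M : Type) [Finite M] (τ : ℕ → C) (hτ : ∀ k, τ k ∈ T) (I : Finset ℕ) :
    ∃ (σ : ℕ → M → ℚ) (Z : Finset ℚˣ),
      (∀ z ∈ Z, ∀ t ∈ T, ∀ᶠ y : ℚˣ in (ε t : Filter ℚˣ), c ((z * y : ℚˣ) : ℚ) = t) ∧
      (∀ k ∈ I, ∀ γ : Finset M, γ.Nonempty → ∑ i ∈ γ, σ k i ≠ 0) ∧
      ∀ γ : ℕ → Finset M, (∀ k ∈ I, (γ k).Nonempty) →
        ∀ U ⊆ I, (∃ z ∈ Z, (z : ℚ) = ∏ k ∈ U, ∑ i ∈ γ k, σ k i) ∧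
          ∀ a ∈ U, (∀ k ∈ U, k ≤ a) → c (∏ k ∈ U, ∑ i ∈ γ k, σ k i) = τ a := by
  classical
  induction I using Finset.induction_on_max with
  | empty =>
    refine ⟨fun _ _ => 1, {1}, ?_, ?_, ?_⟩
    · intro z hz t ht
      rw [Finset.mem_singleton] at hz
      subst hz
      simpa using h1 t ht
    · intro k hk
      exact absurd hk (Finset.notMem_empty k)
    · intro γ _ U hU
      rw [Finset.subset_empty] at hU
      subst hU
      exact ⟨⟨1, by simp, by simp⟩, fun a ha => absurd ha (Finset.notMem_empty a)⟩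
  | insert a I ha ih =>
    obtain ⟨σ, Z, hZ, hσ, hU⟩ := ih
    have haI : a ∉ I := fun h => lt_irrefl a (ha a h)
    have hA : ∀ᶠ y : ℚˣ in (ε (τ a) : Filter ℚˣ), (∀ z ∈ Z, c ((z * y : ℚˣ) : ℚ) = τ a) ∧
        ∀ z ∈ Z, ∀ t ∈ T, ∀ᶠ y' : ℚˣ in (ε t : Filter ℚˣ), c ((z * (y * y') : ℚˣ) : ℚ) = t := by
      refine Filter.Eventually.and ?_ ?_
      · rw [Filter.eventually_all_finset]
        intro z hz
        exact hZ z hz (τ a) (hτ a)
      · rw [Filter.eventually_all_finset]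
        intro z hz
        rw [Filter.eventually_all_finset]
        intro t ht
        exact h2 (τ a) (hτ a) t ht (fun y => c ((z * y : ℚˣ) : ℚ) = t) (hZ z hz t ht)
    obtain ⟨σa, hσa⟩ := h3 (τ a) (hτ a) _ hA M
    choose! g hgA hg using hσa
    have : Fintype M := Fintype.ofFinite M
    refine ⟨Function.update σ a σa, Z ∪ (Z ×ˢ (Finset.univ.filter
      (fun γ : Finset M => γ.Nonempty))).image (fun q => q.1 * g q.2), ?_, ?_, ?_⟩
    · intro z hz t ht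
      rcases Finset.mem_union.1 hz with hz | hz
      · exact hZ z hz t ht
      · obtain ⟨⟨z', γ⟩, hzγ, rfl⟩ := Finset.mem_image.1 hz
        rw [Finset.mem_product, Finset.mem_filter] at hzγ
        have := (hgA γ hzγ.2.2).2 z' hzγ.1 t ht
        simp only [mul_assoc]
        exact this
    · intro k hk γ hγ
      by_cases hka : k = a
      · subst hka
        rw [Function.update_self, ← hg γ hγ]
        exact (g γ).ne_zero
      · rw [Function.update_of_ne hka]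
        exact hσ k (Finset.mem_of_mem_insert_of_ne hk hka) γ hγ
    · intro γ hγ U hUI
      have hprod : ∀ W ⊆ I, ∏ k ∈ W, ∑ i ∈ γ k, Function.update σ a σa k i =
          ∏ k ∈ W, ∑ i ∈ γ k, σ k i := by
        intro W hW
        refine Finset.prod_congr rfl ?_
        intro k hk
        have hka : k ≠ a := fun h => haI (h ▸ hW hk)
        rw [Function.update_of_ne hka]
      have hγI : ∀ k ∈ I, (γ k).Nonempty := fun k hk => hγ k (Finset.mem_insert_of_mem hk)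
      by_cases haU : a ∈ U
      · have hU'I : U.erase a ⊆ I := fun k hk =>
          Finset.mem_of_mem_insert_of_ne (hUI (Finset.mem_of_mem_erase hk))
            (Finset.ne_of_mem_erase hk)
        obtain ⟨⟨z, hz, hzU⟩, -⟩ := hU γ hγI (U.erase a) hU'I
        have hγa : (γ a).Nonempty := hγ a (Finset.mem_insert_self a I)
        have hval : ∏ k ∈ U, ∑ i ∈ γ k, Function.update σ a σa k i =
            ((z * g (γ a) : ℚˣ) : ℚ) := by
          rw [← Finset.prod_erase_mul U _ haU, hprod _ hU'I, ← hzU, Function.update_self,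
            ← hg _ hγa, Units.val_mul]
        refine ⟨⟨z * g (γ a), ?_, hval.symm⟩, ?_⟩
        · refine Finset.mem_union_right _ (Finset.mem_image.2 ⟨(z, γ a), ?_, rfl⟩)
          rw [Finset.mem_product, Finset.mem_filter]
          exact ⟨hz, Finset.mem_univ _, hγa⟩
        · intro b hb hbmax
          have hba : b = a := by
            apply le_antisymm
            · rcases Finset.mem_insert.1 (hUI hb) with h | h
              · exact le_of_eq h
              · exact le_of_lt (ha b h)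
            · exact hbmax a haU
          subst hba
          rw [hval]
          exact (hgA _ hγa).1 z hz
      · have hUI' : U ⊆ I := fun k hk =>
          Finset.mem_of_mem_insert_of_ne (hUI hk) (fun hka => haU (hka ▸ hk))
        obtain ⟨⟨z, hz, hzU⟩, hcol⟩ := hU γ hγI U hUI'
        rw [hprod U hUI']
        exact ⟨⟨z, Finset.mem_union_left _ hz, hzU⟩, hcol⟩

theorem systems {C : Type} (c : ℚ → C) (T : Finset C) (ε : C → Ultrafilter ℚˣ)
    (h1 : ∀ t ∈ T, ∀ᶠ y : ℚˣ in (ε t : Filter ℚˣ), c (y : ℚ) = t)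
    (h2 : ∀ s ∈ T, ∀ t ∈ T, ∀ p : ℚˣ → Prop, (∀ᶠ y in (ε t : Filter ℚˣ), p y) →
        ∀ᶠ x in (ε s : Filter ℚˣ), ∀ᶠ y in (ε t : Filter ℚˣ), p (x * y))
    (h3 : ∀ t ∈ T, ∀ A : Set ℚˣ, A ∈ ε t → ∀ (M : Type) [Finite M], ∃ σ : M → ℚ,
        ∀ γ : Finset M, γ.Nonempty → ∃ g ∈ A, (g : ℚ) = ∑ i ∈ γ, σ i)
    (M : Type) [Finite M] (τ : ℕ → C) (hτ : ∀ k, τ k ∈ T) (I : Finset ℕ) :
    ∃ σ : ℕ → M → ℚ,
      (∀ k ∈ I, ∀ γ : Finset M, γ.Nonempty → ∑ i ∈ γ, σ k i ≠ 0) ∧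
      ∀ γ : ℕ → Finset M, (∀ k ∈ I, (γ k).Nonempty) →
        ∀ U ⊆ I, ∀ a ∈ U, (∀ k ∈ U, k ≤ a) → c (∏ k ∈ U, ∑ i ∈ γ k, σ k i) = τ a := by
  obtain ⟨σ, Z, -, hσ, hU⟩ := systems_aux c T ε h1 h2 h3 M τ hτ I
  exact ⟨σ, hσ, fun γ hγ U hUI => (hU γ hγ U hUI).2⟩

end MP556fef
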