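import Mathlib

namespace MP556fef

/-- Closed left ideals. -/
def u1LI {S : Type} [Semigroup S] [TopologicalSpace S] (J : Set S) : Prop :=
  IsClosed J ∧ J.Nonempty ∧ ∀ u : S, ∀ v ∈ J, u * v ∈ J

section U1

variable {S : Type} [Semigroup S] [TopologicalSpace S] [CompactSpace S] [T2Space S]

omit [T2Space S] in
theorem u1_exists_min {J : Set S} (hJ : u1LI J) :
    ∃ L ⊆ J, Minimal (fun K : Set S => u1LI K) L := by
  obtain ⟨m, hm, hmin⟩ := zorn_superset_nonempty {K : Set S | u1LI K} (by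
    intro c hc hchain hne
    refine ⟨⋂₀ c, ⟨isClosed_sInter fun K hK => (hc hK).1, ?_, ?_⟩, fun s hs => Set.sInter_subset_of_mem hs⟩
    · have : Nonempty c := hne.to_subtype
      refine IsCompact.nonempty_sInter_of_directed_nonempty_isCompact_isClosed ?_
        (fun K hK => (hc hK).2.1) (fun K hK => (hc hK).1.isCompact) (fun K hK => (hc hK).1)
      intro a ha b hb
      rcases hchain.total ha hb with h | h
      · exact ⟨a, ha, subset_rfl, h⟩
      · exact ⟨b, hb, h, subset_rfl⟩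
    · intro u v hv K hK
      exact (hc hK).2.2 u v (hv K hK)) J hJ
  exact ⟨m, hm, hmin⟩

theorem u1_solve (hcont : ∀ v : S, Continuous (fun u : S => u * v)) {L : Set S}
    (hL : Minimal (fun K : Set S => u1LI K) L) {w v : S} (hw : w ∈ L) (hv : v ∈ L) :
    ∃ s ∈ L, s * w = v := by
  have h1 : u1LI ((fun u : S => u * w) '' L) := by
    refine ⟨((hL.1.1.isCompact).image (hcont w)).isClosed, hL.1.2.1.image _, ?_⟩
    rintro u _ ⟨x, hx, rfl⟩
    exact ⟨u * x, hL.1.2.2 u x hx, mul_assoc _ _ _⟩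
  have h2 : (fun u : S => u * w) '' L ⊆ L := by
    rintro _ ⟨x, _, rfl⟩
    exact hL.1.2.2 x w hw
  have h3 := hL.2 h1 h2
  exact h3 hv

theorem u1_idem (hcont : ∀ v : S, Continuous (fun u : S => u * v)) {L : Set S}
    (hL : u1LI L) : ∃ e ∈ L, e * e = e :=
  exists_idempotent_in_compact_subsemigroup hcont L hL.2.1 hL.1.isCompact
    (fun x _ y hy => hL.2.2 x y hy)

theorem u1_idem_mul (hcont : ∀ v : S, Continuous (fun u : S => u * v)) {L : Set S}
    (hL : Minimal (fun K : Set S => u1LI K) L) {e f : S} (he : e ∈ L) (hf : f ∈ L)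
    (hff : f * f = f) : e * f = e := by
  obtain ⟨s, -, hs⟩ := u1_solve hcont hL hf he
  rw [← hs, mul_assoc, hff]

/-- Module U1. -/
theorem exists_rightzero (S : Type) [Semigroup S] [TopologicalSpace S] [CompactSpace S] [T2Space S]
    [Nonempty S] (hcont : ∀ v : S, Continuous (fun u : S => u * v)) :
    ∃ E : Set S, (∀ a ∈ E, ∀ b ∈ E, a * b = b) ∧
      (∀ J : Set S, IsClosed J → J.Nonempty → (∀ u : S, ∀ v ∈ J, u * v ∈ J) → (E ∩ J).Nonempty) ∧
      (∀ a ∈ E, ∀ u : S, ∃ s : S, s * (u * a) = a) := by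
  have hS : u1LI (Set.univ : Set S) := ⟨isClosed_univ, Set.univ_nonempty, fun _ _ _ => trivial⟩
  obtain ⟨L1, -, hL1⟩ := u1_exists_min hS
  obtain ⟨e, heL, hee⟩ := u1_idem hcont hL1.1
  have key : ∀ L : Set S, Minimal (fun K : Set S => u1LI K) L →
      ∃ a ∈ L, e * a = a ∧ a * e = e := by
    intro L hL
    obtain ⟨f, hf, hff⟩ := u1_idem hcont hL.1
    have hw : e * f ∈ L := hL.1.2.2 e f hf
    obtain ⟨s, hs, hsw⟩ := u1_solve hcont hL hw hf
    -- a = e * f * s
    have haa : (e * f * s) * (e * f * s) = e * f * s := by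
      calc (e * f * s) * (e * f * s) = e * f * (s * (e * f)) * s := by
            simp only [mul_assoc]
        _ = e * f * f * s := by rw [hsw]
        _ = e * f * s := by rw [mul_assoc e f f, hff]
    have hea : e * (e * f * s) = e * f * s := by
      calc e * (e * f * s) = (e * e) * f * s := by simp only [mul_assoc]
        _ = e * f * s := by rw [hee]
    have haL : e * f * s ∈ L := hL.1.2.2 _ s hs
    set a := e * f * s with ha
    have hgL : a * e ∈ L1 := hL1.1.2.2 a e heL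
    have hgg : (a * e) * (a * e) = a * e := by
      calc (a * e) * (a * e) = a * (e * a) * e := by simp only [mul_assoc]
        _ = a * e := by rw [hea, haa]
    have h1 : e * (a * e) = a * e := by
      rw [← mul_assoc, hea]
    have h2 : e * (a * e) = e := u1_idem_mul hcont hL1 heL hgL hgg
    exact ⟨a, haL, hea, h1.symm.trans h2⟩
  refine ⟨{a | ∃ L : Set S, Minimal (fun K : Set S => u1LI K) L ∧ a ∈ L ∧ e * a = a ∧ a * e = e},
    ?_, ?_, ?_⟩
  · rintro a ⟨La, _, _, _, ha⟩ b ⟨Lb, _, _, hb, _⟩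
    rw [← hb, ← mul_assoc, ha]
  · intro J hJ1 hJ2 hJ3
    obtain ⟨L, hLJ, hL⟩ := u1_exists_min (⟨hJ1, hJ2, hJ3⟩ : u1LI J)
    obtain ⟨a, haL, h1, h2⟩ := key L hL
    exact ⟨a, ⟨L, hL, haL, h1, h2⟩, hLJ haL⟩
  · rintro a ⟨L, hL, haL, _, _⟩ u
    obtain ⟨s, -, hs⟩ := u1_solve hcont hL (hL.1.2.2 u a haL) haL
    exact ⟨s, hs⟩

end U1

end MP556fef
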