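import Mathlib
import Pool.Agent.Work.MP_556fef_co.U1

namespace MP556fef

attribute [local instance] Ultrafilter.mul Ultrafilter.semigroup Ultrafilter.add
  Ultrafilter.addSemigroup

open Classical in
/-- A rational as a unit; `0` goes to `1`. -/
noncomputable def u2unit (x : ℚ) : ℚˣ := if h : x = 0 then 1 else Units.mk0 x h

theorem u2unit_coe {x : ℚ} (h : x ≠ 0) : ((u2unit x : ℚˣ) : ℚ) = x := by
  unfold u2unit
  rw [dif_neg h, Units.val_mk0]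

theorem u2_FS_pos (a : Stream' ℚ) (ha : ∀ n, 0 < a.get n) (m : ℚ) (hm : m ∈ Hindman.FS a) :
    0 < m := by
  induction hm with
  | head' a => exact ha 0
  | tail' a m _ ih => exact ih fun n => ha (n + 1)
  | cons' a m _ ih => exact add_pos (ha 0) (ih fun n => ha (n + 1))

/-- Richness. -/
theorem u2_rich {E : Set (Ultrafilter ℚˣ)}
    (hE3 : ∀ a ∈ E, ∀ u : Ultrafilter ℚˣ, ∃ s : Ultrafilter ℚˣ, s * (u * a) = a)
    {a : Ultrafilter ℚˣ} (ha : a ∈ E) {A : Set ℚˣ} (hA : A ∈ a) (M : Type) [Finite M] :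
    ∃ σ : M → ℚ, ∀ γ : Finset M, γ.Nonempty → ∃ g ∈ A, (g : ℚ) = ∑ i ∈ γ, σ i := by
  classical
  obtain ⟨U, hU1, hU2⟩ := Hindman.exists_idempotent_ultrafilter_le_FS (Stream'.const (1 : ℚ))
  have hU3 : ∀ᶠ m in (U : Filter ℚ), m ≠ 0 := by
    filter_upwards [hU2] with m hm
    exact (u2_FS_pos _ (fun n => by rw [Stream'.get_const]; norm_num) m hm).ne'
  obtain ⟨s, hs⟩ := hE3 a ha (U.map u2unit)
  have h1 : ∀ᶠ y in ((s * (U.map u2unit * a) : Ultrafilter ℚˣ) : Filter ℚˣ), y ∈ A := by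
    rw [hs]
    exact hA
  rw [Ultrafilter.eventually_mul] at h1
  obtain ⟨x, hx⟩ := h1.exists
  rw [Ultrafilter.eventually_mul] at hx
  have h2 : ∀ᶠ q in (U : Filter ℚ), ∀ᶠ y in (a : Filter ℚˣ), x * (u2unit q * y) ∈ A := hx
  obtain ⟨b, hb⟩ := Hindman.exists_FS_of_large U hU1
    {q | q ≠ 0 ∧ ∀ᶠ y in (a : Filter ℚˣ), x * (u2unit q * y) ∈ A} (hU3.and h2)
  obtain ⟨n, ⟨e⟩⟩ := Finite.exists_equiv_fin M
  have h3 : ∀ γ : Finset M, γ.Nonempty →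
      (∑ i ∈ γ, b.get (e i : ℕ)) ∈ {q | q ≠ 0 ∧ ∀ᶠ y in (a : Filter ℚˣ), x * (u2unit q * y) ∈ A} := by
    intro γ hγ
    have h4 : ∑ i ∈ γ, b.get (e i : ℕ) = ∑ j ∈ γ.image (fun i => (e i : ℕ)), b.get j := by
      rw [Finset.sum_image]
      intro i _ j _ hij
      exact e.injective (Fin.ext hij)
    rw [h4]
    exact hb (Hindman.FS.finsetSum b _ (hγ.image _))
  have h5 : ∀ᶠ y in (a : Filter ℚˣ), ∀ γ : Finset M, γ.Nonempty →
      x * (u2unit (∑ i ∈ γ, b.get (e i : ℕ)) * y) ∈ A := by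
    rw [Filter.eventually_all]
    intro γ
    by_cases hγ : γ.Nonempty
    · filter_upwards [(h3 γ hγ).2] with y hy _
      exact hy
    · exact Filter.Eventually.of_forall fun y h => absurd h hγ
  obtain ⟨y, hy⟩ := h5.exists
  refine ⟨fun i => x * b.get (e i : ℕ) * y, fun γ hγ => ⟨_, hy γ hγ, ?_⟩⟩
  rw [Units.val_mul, Units.val_mul, u2unit_coe (h3 γ hγ).1, ← Finset.sum_mul, ← Finset.mul_sum]
  ring

/-- Module U2. The ultrafilters used in the proof. -/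
theorem ultra (C : Type) [Finite C] (c : ℚ → C) :
    ∃ (T : Finset C) (ε : C → Ultrafilter ℚˣ) (H : Finset ℚˣ),
      (∀ t ∈ T, ∀ᶠ y : ℚˣ in (ε t : Filter ℚˣ), c (y : ℚ) = t) ∧
      (∀ s ∈ T, ∀ t ∈ T, ∀ p : ℚˣ → Prop, (∀ᶠ y in (ε t : Filter ℚˣ), p y) →
        ∀ᶠ x in (ε s : Filter ℚˣ), ∀ᶠ y in (ε t : Filter ℚˣ), p (x * y)) ∧
      (∀ t ∈ T, ∀ A : Set ℚˣ, A ∈ ε t → ∀ (M : Type) [Finite M], ∃ σ : M → ℚ,
        ∀ γ : Finset M, γ.Nonempty → ∃ g ∈ A, (g : ℚ) = ∑ i ∈ γ, σ i) ∧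
      (∀ x : ℚˣ, ∃ h ∈ H, c ((h * x : ℚˣ) : ℚ) ∈ T) := by
  classical
  have := Fintype.ofFinite C
  obtain ⟨E, hE1, hE2, hE3⟩ :=
    exists_rightzero (Ultrafilter ℚˣ) Ultrafilter.continuous_mul_left
  let Ts : Set C := {t | ∃ a ∈ E, ∀ᶠ y : ℚˣ in (a : Filter ℚˣ), c (y : ℚ) = t}
  let T : Finset C := Finset.univ.filter fun t => t ∈ Ts
  let ε : C → Ultrafilter ℚˣ := fun t => if h : t ∈ Ts then h.choose else pure 1
  have hε : ∀ t ∈ T, ε t ∈ E ∧ ∀ᶠ y : ℚˣ in (ε t : Filter ℚˣ), c (y : ℚ) = t := by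
    intro t ht
    have ht' : t ∈ Ts := (Finset.mem_filter.1 ht).2
    simp only [ε, dif_pos ht']
    exact ht'.choose_spec
  have hfin : ∃ H : Finset ℚˣ, ∀ x : ℚˣ, ∃ h ∈ H, c ((h * x : ℚˣ) : ℚ) ∈ T := by
    by_contra hcon
    push Not at hcon
    let J : Set (Ultrafilter ℚˣ) := ⋂ g : ℚˣ, {u | {x : ℚˣ | c ((g * x : ℚˣ) : ℚ) ∉ T} ∈ u}
    have hJc : IsClosed J := isClosed_iInter fun g => ultrafilter_isClosed_basic _
    have hJn : J.Nonempty := by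
      refine CompactSpace.iInter_nonempty (fun g => ultrafilter_isClosed_basic _) fun H => ?_
      obtain ⟨x, hx⟩ := hcon H
      refine ⟨pure x, ?_⟩
      simp only [Set.mem_iInter]
      intro g hg
      exact hx g hg
    have hJl : ∀ u : Ultrafilter ℚˣ, ∀ v ∈ J, u * v ∈ J := by
      intro u v hv
      rw [Set.mem_iInter] at hv ⊢
      intro g
      have h1 : ∀ᶠ z in ((u * v : Ultrafilter ℚˣ) : Filter ℚˣ), c ((g * z : ℚˣ) : ℚ) ∉ T := by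
        rw [Ultrafilter.eventually_mul]
        refine Filter.Eventually.of_forall fun z => ?_
        have h2 : ∀ᶠ y in (v : Filter ℚˣ), c ((g * z * y : ℚˣ) : ℚ) ∉ T := hv (g * z)
        filter_upwards [h2] with y hy
        rw [← mul_assoc]
        exact hy
      exact h1
    obtain ⟨a, haE, haJ⟩ := hE2 J hJc hJn hJl
    have h3 : ∃ t, ∀ᶠ y : ℚˣ in (a : Filter ℚˣ), c (y : ℚ) = t :=
      Ultrafilter.eventually_exists_iff.1 (Filter.Eventually.of_forall fun y => ⟨_, rfl⟩)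
    obtain ⟨t, ht⟩ := h3
    have htT : t ∈ T := Finset.mem_filter.2 ⟨Finset.mem_univ _, a, haE, ht⟩
    rw [Set.mem_iInter] at haJ
    have h4 : ∀ᶠ y in (a : Filter ℚˣ), c ((1 * y : ℚˣ) : ℚ) ∉ T := haJ 1
    obtain ⟨y, hy1, hy2⟩ := (ht.and h4).exists
    rw [one_mul, hy1] at hy2
    exact hy2 htT
  obtain ⟨H, hH⟩ := hfin
  refine ⟨T, ε, H, fun t ht => (hε t ht).2, ?_, ?_, hH⟩
  · intro s hs t ht p hp
    rw [← Ultrafilter.eventually_mul, hE1 _ (hε s hs).1 _ (hε t ht).1]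
    exact hp
  · intro t ht A hA M _
    exact u2_rich hE3 (hε t ht).1 hA M

end MP556fef
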