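import Mathlib
import Pool.Agent.Work.MP_556fef_co.Dness
import Pool.Agent.Work.MP_556fef_co.Sys
import Pool.Agent.Work.MP_556fef_co.U2

/-!
The final assembly of MP_556fef_co.
-/

namespace MP556fef

open Polynomial Filter

/-- Combinatorial core: given the colour set `T`, the finite set `H`, a point `x`, numbers `y k`
with prescribed colours of products and the shift invariance, find the pattern. -/
theorem core {K : Type} (c : ℚ → K) (T : Finset K) (H : Finset ℚˣ)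
    (P : Finset ℚ[X]) (r L : ℕ) (hL : (H ×ˢ T).card ≤ L)
    (idx : ℕ → K → ℕ) (τ : ℕ → K)
    (hidx : ∀ j, ∀ t ∈ T, j * r ≤ idx j t ∧ idx j t < (j + 1) * r ∧ τ (idx j t) = t)
    (hT : ∀ x : ℚˣ, ∃ h ∈ H, c ((h * x : ℚˣ) : ℚ) ∈ T)
    (x : ℚ) (hx : x ≠ 0) (y : ℕ → ℚ) (hy : ∀ k ∈ Finset.range (L * r), y k ≠ 0)
    (hcol : ∀ U ⊆ Finset.range (L * r), ∀ a ∈ U, (∀ k ∈ U, k ≤ a) → c (∏ k ∈ U, y k) = τ a)
    (hsh : ∀ U ⊆ Finset.range (L * r), ∀ V ⊆ Finset.range (L * r), ∀ m ∈ U, (∀ v ∈ V, m < v) →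
      ∀ h ∈ H, ∀ p ∈ P, c ((h : ℚ) * (∏ k ∈ V, y k) * x + p.eval (∏ k ∈ U, y k)) =
        c ((h : ℚ) * (∏ k ∈ V, y k) * x)) :
    ∃ X Y : ℚ, X ≠ 0 ∧ Y ≠ 0 ∧ c Y = c X ∧ c (X * Y) = c X ∧ ∀ p ∈ P, c (X + p.eval Y) = c X := by
  classical
  have hprodne : ∀ V ⊆ Finset.range (L * r), ∏ k ∈ V, y k ≠ 0 := fun V hV =>
    Finset.prod_ne_zero_iff.2 (fun k hk => hy k (hV hk))
  have hlab : ∀ V : Finset ℕ, ∃ q : ℚˣ × K, V ⊆ Finset.range (L * r) →
      q.1 ∈ H ∧ q.2 ∈ T ∧ c ((q.1 : ℚ) * (∏ k ∈ V, y k) * x) = q.2 := by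
    intro V
    by_cases hV : V ⊆ Finset.range (L * r)
    · obtain ⟨h, hh, hc⟩ := hT (Units.mk0 ((∏ k ∈ V, y k) * x) (mul_ne_zero (hprodne V hV) hx))
      refine ⟨(h, c (((h * Units.mk0 ((∏ k ∈ V, y k) * x)
        (mul_ne_zero (hprodne V hV) hx) : ℚˣ)) : ℚ)), fun _ => ⟨hh, hc, ?_⟩⟩
      simp [mul_assoc]
    · obtain ⟨h, hh, hc⟩ := hT 1
      exact ⟨(h, c (((h * 1 : ℚˣ)) : ℚ)), fun h => absurd h hV⟩
  choose lab hlab using hlab
  let V : ℕ → Finset ℕ := fun n =>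
    Nat.rec ∅ (fun k W => insert (idx (L - 1 - k) (lab W).2) W) n
  have V0 : V 0 = ∅ := rfl
  have Vs : ∀ k, V (k + 1) = insert (idx (L - 1 - k) (lab (V k)).2) (V k) := fun k => rfl
  have hVI : ∀ k ≤ L, V k ⊆ Finset.range (L * r) ∧ ∀ a ∈ V k, (L - k) * r ≤ a := by
    intro k
    induction k with
    | zero =>
      intro _
      rw [V0]
      simp
    | succ k ih =>
      intro hk
      obtain ⟨h1, h2⟩ := ih (by omega)
      obtain ⟨e1, e2, -⟩ := hidx (L - 1 - k) (lab (V k)).2 (hlab _ h1).2.1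
      have e3 : L - 1 - k + 1 = L - k := by omega
      have e4 : L - 1 - k = L - (k + 1) := by omega
      rw [e3] at e2
      rw [Vs]
      constructor
      · intro a ha
        rcases Finset.mem_insert.1 ha with rfl | ha
        · rw [Finset.mem_range]
          exact lt_of_lt_of_le e2 (Nat.mul_le_mul_right r (Nat.sub_le L k))
        · exact h1 ha
      · intro a ha
        rcases Finset.mem_insert.1 ha with rfl | ha
        · rw [← e4]
          exact e1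
        · exact le_trans (Nat.mul_le_mul_right r (by omega)) (h2 a ha)
  have hmono : ∀ k l, k ≤ l → l ≤ L → V k ⊆ V l ∧ ∀ a ∈ V l, a ∈ V k ∨ a < (L - k) * r := by
    intro k l hkl
    induction l, hkl using Nat.le_induction with
    | base => exact fun _ => ⟨subset_rfl, fun a ha => Or.inl ha⟩
    | succ l hkl ih =>
      intro hl
      obtain ⟨h1, h2⟩ := ih (by omega)
      obtain ⟨e1, e2, -⟩ := hidx (L - 1 - l) (lab (V l)).2 (hlab _ (hVI l (by omega)).1).2.1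
      have e3 : L - 1 - l + 1 = L - l := by omega
      rw [e3] at e2
      rw [Vs]
      refine ⟨h1.trans (Finset.subset_insert _ _), ?_⟩
      intro a ha
      rcases Finset.mem_insert.1 ha with rfl | ha
      · right
        exact lt_of_lt_of_le e2 (Nat.mul_le_mul_right r (by omega))
      · exact h2 a ha
  obtain ⟨k, hk, l, hl, hkl, heq⟩ : ∃ k ≤ L, ∃ l ≤ L, k < l ∧ lab (V k) = lab (V l) := by
    have hmaps : ∀ k ∈ Finset.range (L + 1), lab (V k) ∈ H ×ˢ T := by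
      intro k hk
      have h1 := hlab (V k) (hVI k (by rw [Finset.mem_range] at hk; omega)).1
      exact Finset.mem_product.2 ⟨h1.1, h1.2.1⟩
    obtain ⟨k, hk, l, hl, hne, heq⟩ := Finset.exists_ne_map_eq_of_card_lt_of_maps_to
      (by rw [Finset.card_range]; omega) hmaps
    rw [Finset.mem_range] at hk hl
    rcases lt_or_gt_of_ne hne with h | h
    · exact ⟨k, by omega, l, by omega, h, heq⟩
    · exact ⟨l, by omega, k, by omega, h, heq.symm⟩
  obtain ⟨hkI, hkge⟩ := hVI k hk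
  obtain ⟨hlI, -⟩ := hVI l hl
  obtain ⟨hhH, htT, hck⟩ := hlab (V k) hkI
  obtain ⟨-, -, hcl⟩ := hlab (V l) hlI
  rw [← heq] at hcl
  set h := (lab (V k)).1 with hh
  set t := (lab (V k)).2 with ht
  obtain ⟨e1, e2, e3⟩ := hidx (L - 1 - k) t htT
  have e4 : L - 1 - k + 1 = L - k := by omega
  rw [e4] at e2
  set i := idx (L - 1 - k) t with hi
  have hi1 : i ∈ V (k + 1) := by
    rw [Vs]
    exact Finset.mem_insert_self _ _
  obtain ⟨hsub, hor⟩ := hmono (k + 1) l hkl hl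
  have hsubk : V k ⊆ V l := (hmono k l hkl.le hl).1
  have hik : ∀ v ∈ V k, i < v := fun v hv => lt_of_lt_of_le e2 (hkge v hv)
  have hinot : i ∉ V k := fun h => lt_irrefl i (hik i h)
  have hiW : i ∈ V l \ V k := Finset.mem_sdiff.2 ⟨hsub hi1, hinot⟩
  have hmax : ∀ a ∈ V l \ V k, a ≤ i := by
    intro a ha
    rw [Finset.mem_sdiff] at ha
    rcases hor a ha.1 with h1 | h1
    · rw [Vs] at h1
      rcases Finset.mem_insert.1 h1 with h1 | h1
      · exact le_of_eq h1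
      · exact absurd h1 ha.2
    · have e5 : L - 1 - k = L - (k + 1) := by omega
      rw [← e5] at h1
      exact le_of_lt (lt_of_lt_of_le h1 e1)
  have hWI : V l \ V k ⊆ Finset.range (L * r) := Finset.sdiff_subset.trans hlI
  refine ⟨(h : ℚ) * (∏ k ∈ V k, y k) * x, ∏ k ∈ V l \ V k, y k, ?_, hprodne _ hWI, ?_, ?_, ?_⟩
  · exact mul_ne_zero (mul_ne_zero h.ne_zero (hprodne _ hkI)) hx
  · rw [hcol _ hWI i hiW hmax, e3, hck]
  · have : (h : ℚ) * (∏ k ∈ V k, y k) * x * (∏ k ∈ V l \ V k, y k) =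
        (h : ℚ) * (∏ k ∈ V l, y k) * x := by
      rw [← Finset.prod_sdiff hsubk]
      ring
    rw [this, hcl, hck]
  · intro p hp
    exact hsh _ hWI _ hkI i hiW hik h hhH p hp

theorem main {K : Type} [Finite K] (c : ℚ → K) (P : Finset ℚ[X])
    (hP : ∀ p ∈ P, p.coeff 0 = 0) :
    ∃ x y : ℚ, x ≠ 0 ∧ y ≠ 0 ∧ c y = c x ∧ c (x * y) = c x ∧
      ∀ p ∈ P, c (x + p.eval y) = c x := by
  classical
  obtain ⟨T, ε, H, h1, h2, h3, h4⟩ := ultra K c
  have hTne : T.Nonempty := by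
    obtain ⟨h, -, hc⟩ := h4 1
    exact ⟨_, hc⟩
  have hr : 0 < T.card := Finset.card_pos.2 hTne
  let e : T ≃ Fin T.card := T.equivFin
  let τ : ℕ → K := fun k => (e.symm ⟨k % T.card, Nat.mod_lt _ hr⟩ : T)
  have hτ : ∀ k, τ k ∈ T := fun k => (e.symm ⟨k % T.card, Nat.mod_lt _ hr⟩ : T).2
  let idx : ℕ → K → ℕ := fun j t => if h : t ∈ T then j * T.card + (e ⟨t, h⟩ : ℕ) else 0
  have hidx : ∀ j, ∀ t ∈ T, j * T.card ≤ idx j t ∧ idx j t < (j + 1) * T.card ∧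
      τ (idx j t) = t := by
    intro j t ht
    have hval : idx j t = j * T.card + (e ⟨t, ht⟩ : ℕ) := by simp [idx, ht]
    have hlt : (e ⟨t, ht⟩ : ℕ) < T.card := (e ⟨t, ht⟩).isLt
    refine ⟨by omega, by rw [hval, add_mul, one_mul]; omega, ?_⟩
    have hmod : idx j t % T.card = (e ⟨t, ht⟩ : ℕ) := by
      rw [hval, Nat.mul_add_mod', Nat.mod_eq_of_lt hlt]
    have : (⟨idx j t % T.card, Nat.mod_lt _ hr⟩ : Fin T.card) = e ⟨t, ht⟩ := Fin.ext hmod
    simp only [τ, this, Equiv.symm_apply_apply]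
  set L := (H ×ˢ T).card with hL
  obtain ⟨M, β, hM, hβ, hD⟩ := dness K (H.image (fun h : ℚˣ => (h : ℚ)))
    (by
      intro h hh
      obtain ⟨u, -, rfl⟩ := Finset.mem_image.1 hh
      exact u.ne_zero) P hP (Finset.range (L * T.card))
  obtain ⟨σ, hσ, hcol⟩ := systems c T ε h1 h2 h3 M τ hτ (Finset.range (L * T.card))
  obtain ⟨φ, hφ⟩ := hD σ hσ
  obtain ⟨x₀, hx₀⟩ : ∃ x₀ : ℚ, ∀ b, x₀ + φ b ≠ 0 := by
    obtain ⟨x₀, hx₀⟩ := (Set.finite_range (fun b => - φ b)).infinite_compl.nonempty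
    refine ⟨x₀, fun b hb => hx₀ ⟨b, ?_⟩⟩
    simp only
    linarith
  obtain ⟨b, γ, hγ, hsh⟩ := hφ c x₀
  exact core c T H P T.card L le_rfl idx τ hidx h4 (x₀ + φ b) (hx₀ b)
    (fun k => ∑ i ∈ γ k, σ k i) (fun k hk => hσ k hk _ (hγ k hk))
    (fun U hU a ha hmax => hcol γ hγ U hU a ha hmax)
    (fun U hU V hV m hm hmV h hh p hp =>
      hsh U hU V hV m hm hmV (h : ℚ) (Finset.mem_image_of_mem _ hh) p hp)

end MP556fef
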